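import Pool.Agent.Work.MP_c93117_an.Main.Final
import Pool.Agent.Work.MP_c93117_an.Nm.Final
import Pool.Agent.Work.MP_c93117_an.W.Pos

/-!
# MP_c93117_an: almost positive projections (of any norm) in spaces `C(K)`

For every compact metric space `K` and every bounded linear projection `P` of `C(K)` onto `p` with
`P f ≥ -10⁻⁶⁰ ‖P‖⁻⁴` for all `0 ≤ f ≤ 1`, such that `K` is countable or the dual of `p` is
separable, the space `p` is isomorphic to `C(L)` for a countable compact metric space `L`.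
-/

namespace Pool.Agent.Results.MP_c93117_an.AlmostPositive

theorem result :
    ∀ (K : Type) [MetricSpace K] [CompactSpace K] (p : Submodule ℝ C(K, ℝ))
      (P : C(K, ℝ) →L[ℝ] C(K, ℝ)), (∀ f, P f ∈ p) → (∀ f ∈ p, P f = f) →
      (∀ f : C(K, ℝ), (∀ s, 0 ≤ f s) → (∀ s, f s ≤ 1) →
        ∀ t, -(1 / (10 ^ 60 * ‖P‖ ^ 4)) ≤ P f t) →
      (Countable K ∨ TopologicalSpace.SeparableSpace (StrongDual ℝ p)) →
      ∃ (L : Type) (_ : MetricSpace L) (_ : CompactSpace L),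
        Countable L ∧ Nonempty (p ≃L[ℝ] C(L, ℝ)) := by
  intro K _ _ p P h1 h2 hpos hsep
  refine C93117.W.almost_pos_norm (ε := 1 / 10 ^ 28)
    (fun K _ _ p P h1 h2 hP hsep =>
      C93117.main_final SmP.thmN SmP.prf_SepNC K p P h1 h2 hP hsep)
    (by norm_num) (by norm_num) p P h1 h2 (fun f hf0 hf1 t => ?_) hsep
  refine le_trans (neg_le_neg ?_) (hpos f hf0 hf1 t)
  have h3 : (1 : ℝ) / 10 ^ 60 ≤ (1 / 10 ^ 28) ^ 2 / 3072 := by norm_num
  calc (1 : ℝ) / (10 ^ 60 * ‖P‖ ^ 4) = 1 / 10 ^ 60 * (1 / ‖P‖ ^ 4) := by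
        rw [one_div_mul_one_div]
    _ ≤ (1 / 10 ^ 28) ^ 2 / 3072 * (1 / ‖P‖ ^ 4) := by
        exact mul_le_mul_of_nonneg_right h3 (by positivity)
    _ = (1 / 10 ^ 28) ^ 2 / (3072 * ‖P‖ ^ 4) := by
        rw [div_mul_div_comm, mul_one]

end Pool.Agent.Results.MP_c93117_an.AlmostPositive
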