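import Pool.Agent.Work.MP_c93117_an.Full.Core

/-!
# MP_c93117_an, Q1: a complemented subspace of `C(K)` which is not isomorphic to a space `C(L)`

The question: let `K` be a compact metric space. Is every complemented subspace of `C(K)` (real
scalars) isomorphic to `C(L)` for some compact metric space `L`?

The answer is no. There is a countable compact metric space `K₀` such that for every compact metric
space `K` which contains a copy of `K₀` (for example `K = K₀`), and for every uncountable compact
metric space `K` (for example `K = [0,1]`), the space `C(K)` has a complemented subspace `X` of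
infinite dimension which is not isomorphic to `C(L)` for any compact space `L`.

How the clauses of the problem file are rendered:
* `K` compact metric: a type `K` with `MetricSpace K` and `CompactSpace K`, in any universe;
* `C(K)` with the supremum norm: the Mathlib space `C(K, ℝ)`;
* closed linear subspace, complemented: `Complemented`;
* isomorphic: `Isomorphic`. It is excluded for all compact topological spaces `L` (in any universe,
  not only for the metric ones).
-/

set_option autoImplicit false
set_option linter.style.haveILetI false

universe u v w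

namespace Pool.Agent.Results.MP_c93117_an.NegativeAnswer

open Pool.Agent.Work.MP_c93117_an

/-- `X` is a complemented subspace of the Banach space `Y`: it is a closed linear subspace, and
there is a bounded linear projection `P : Y → Y` (`P ∘ P = P`) with `P(Y) = X`. -/
def Complemented {Y : Type u} [NormedAddCommGroup Y] [NormedSpace ℝ Y] (X : Submodule ℝ Y) : Prop :=
  IsClosed (X : Set Y) ∧
    ∃ P : Y →L[ℝ] Y, (∀ y, P (P y) = P y) ∧ Set.range P = (X : Set Y)

/-- `X` and `Z` are isomorphic: there is a bounded linear bijection `X → Z`. -/
def Isomorphic (X : Type u) (Z : Type v) [NormedAddCommGroup X] [NormedSpace ℝ X]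
    [NormedAddCommGroup Z] [NormedSpace ℝ Z] : Prop :=
  ∃ T : X →L[ℝ] Z, Function.Bijective T

theorem result :
    ∃ (K₀ : Type u) (_ : MetricSpace K₀) (_ : CompactSpace K₀), Countable K₀ ∧
      ∀ (K : Type v) [MetricSpace K] [CompactSpace K],
        (¬ Countable K ∨ ∃ i : K₀ → K, Continuous i ∧ Function.Injective i) →
        ∃ X : Submodule ℝ C(K, ℝ), Complemented X ∧ ¬ FiniteDimensional ℝ X ∧
          ∀ (L : Type w) [TopologicalSpace L] [CompactSpace L], ¬ Isomorphic X C(L, ℝ) := by
  haveI : TopologicalSpace.MetrizableSpace (ULift.{u} Neg.K) :=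
    (Homeomorph.ulift : ULift.{u} Neg.K ≃ₜ Neg.K).isEmbedding.metrizableSpace
  refine ⟨ULift.{u} Neg.K, TopologicalSpace.metrizableSpaceMetric _,
    inferInstance, inferInstance, ?_⟩
  intro K _ _ hK
  have hi : ∃ i : Neg.K → K, Continuous i ∧ Function.Injective i := by
    rcases hK with hK | ⟨i, hi1, hi2⟩
    · exact Full.embed_uncountable K hK
    · exact ⟨i ∘ ULift.up, hi1.comp continuous_uliftUp, hi2.comp ULift.up_injective⟩
  obtain ⟨i, hi1, hi2⟩ := hi
  obtain ⟨P, hP, hN⟩ := Full.exists_proj i hi1 hi2
  obtain ⟨X, h1, h2, h3, h4⟩ := Full.conclude P hP hN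
  exact ⟨X, ⟨h1, P, hP, h2⟩, h3, fun L _ _ ⟨T, hT⟩ => h4 L T hT⟩

end Pool.Agent.Results.MP_c93117_an.NegativeAnswer
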