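import Pool.Agent.Work.MP_c93117_an.Main.Final
import Pool.Agent.Work.MP_c93117_an.Nm.Final

/-!
# MP_c93117_an: projections of norm at most `1 + 10⁻²⁸` in spaces `C(K)`

For every compact metric space `K` and every bounded linear projection `P` of `C(K)` onto `p` with
`‖P‖ ≤ 1 + 10⁻²⁸` such that `K` is countable or the dual of `p` is separable, the space `p` is
isomorphic to `C(L)` for a countable compact metric space `L`.
-/

namespace Pool.Agent.Results.MP_c93117_an.SmallProjections

theorem result :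
    ∀ (K : Type) [MetricSpace K] [CompactSpace K] (p : Submodule ℝ C(K, ℝ))
      (P : C(K, ℝ) →L[ℝ] C(K, ℝ)), (∀ f, P f ∈ p) → (∀ f ∈ p, P f = f) →
      ‖P‖ ≤ 1 + 1 / 10 ^ 28 →
      (Countable K ∨ TopologicalSpace.SeparableSpace (StrongDual ℝ p)) →
      ∃ (L : Type) (_ : MetricSpace L) (_ : CompactSpace L),
        Countable L ∧ Nonempty (p ≃L[ℝ] C(L, ℝ)) :=
  fun K _ _ p P h1 h2 hP hsep =>
    C93117.main_final SmP.thmN SmP.prf_SepNC K p P h1 h2 hP hsep

end Pool.Agent.Results.MP_c93117_an.SmallProjections
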